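import Pool.Agent.Lib.MP_16fe43_al.TreeK3
import Pool.Agent.Lib.WhC.Rect

/-!
# `Wh(G) = 0` from the classes of invertible matrices
-/

set_option autoImplicit false

universe u v

open Matrix

namespace Pool.Agent.Lib.WhC

open Pool.Agent.Lib.MP_16fe43_al

/-- `Wh(G) = 0` if every invertible matrix over `ℤG` has the class of a trivial unit -/
theorem wh_of_cm {G : Type u} [Group G]
    (h : ∀ (n : ℕ) (M : Matrix (Fin n) (Fin n) (MonoidAlgebra ℤ G)), IsUnit M → cm M ∈ TU G) :
    Subsingleton (BHS16.Wh G) := by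
  rw [BHS16.wh_subsingleton_iff]
  intro x
  obtain ⟨n, A, hA⟩ := K1.exists_gen (ofB _ x)
  have h1 : ofB _ x ∈ TU G := by
    rw [hA, ← cl_gen, ← cm_val]
    exact h n A.val A.isUnit
  have h2 : toB _ (ofB _ x) ∈ BHS16.trivialUnits G := h1
  rwa [toB_ofB] at h2

variable {G : Type u} [Group G] {ι : Type v} [Fintype ι] [DecidableEq ι]

theorem cm_single_neg (a : ι) : cm (diagonal (fun i => if i = a then (-1 : MonoidAlgebra ℤ G) else 1)) =
    trC (1 : G) (-1) := by
  let X : Matrix ι (Fin 1) (MonoidAlgebra ℤ G) := fun i _ => if i = a then 1 - -1 else 0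
  let Y : Matrix (Fin 1) ι (MonoidAlgebra ℤ G) := fun _ j => if j = a then 1 else 0
  have h1 : diagonal (fun i => if i = a then (-1 : MonoidAlgebra ℤ G) else 1) = 1 - X * Y := by
    ext1 i j
    rw [Matrix.sub_apply, Matrix.mul_apply, Fin.sum_univ_one]
    show diagonal (fun i => if i = a then (-1 : MonoidAlgebra ℤ G) else 1) i j =
      (1 : Matrix ι ι (MonoidAlgebra ℤ G)) i j -
      (if i = a then (1 - -1 : MonoidAlgebra ℤ G) else 0) * (if j = a then 1 else 0)
    by_cases hij : i = j
    · subst hij
      rw [Matrix.diagonal_apply_eq, Matrix.one_apply_eq]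
      by_cases hi : i = a
      · rw [if_pos hi, if_pos hi, if_pos hi, mul_one, sub_sub_cancel]
      · rw [if_neg hi, if_neg hi, if_neg hi, mul_zero, sub_zero]
    · rw [Matrix.diagonal_apply_ne _ hij, Matrix.one_apply_ne hij]
      by_cases hi : i = a
      · have hj : j ≠ a := fun h => hij (hi.trans h.symm)
        rw [if_neg hj, mul_zero, sub_zero]
      · rw [if_neg hi, zero_mul, sub_zero]
  have h2 : 1 - Y * X = (scU (Fin 1) (trU (1 : G) (-1))).val := by
    rw [scU_val]
    ext1 i j
    rw [Subsingleton.elim j i, Matrix.diagonal_apply_eq, Matrix.sub_apply, Matrix.one_apply_eq,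
      Matrix.mul_apply]
    have h3 : ∑ k : ι, Y i k * X k i = 1 - -1 := by
      rw [Finset.sum_eq_single a]
      · show (if a = a then (1 : MonoidAlgebra ℤ G) else 0) *
          (if a = a then (1 - -1 : MonoidAlgebra ℤ G) else 0) = 1 - -1
        rw [if_pos rfl, if_pos rfl, one_mul]
      · intro k _ hk
        show (if k = a then (1 : MonoidAlgebra ℤ G) else 0) * _ = 0
        rw [if_neg hk, zero_mul]
      · intro h
        exact absurd (Finset.mem_univ a) h
    rw [h3, sub_sub_cancel]
    show (-1 : MonoidAlgebra ℤ G) = MonoidAlgebra.single 1 (((-1 : ℤˣ) : ℤˣ) : ℤ)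
    rw [MonoidAlgebra.one_def, ← MonoidAlgebra.single_neg]
    rfl
  rw [h1, cm_one_sub_mul_comm, h2, cm_val, cl_gen]
  rfl

theorem isUnit_sgn (s : Finset ι) :
    IsUnit (diagonal (fun i => if i ∈ s then (-1 : MonoidAlgebra ℤ G) else 1)) := by
  have h : diagonal (fun i => if i ∈ s then (-1 : MonoidAlgebra ℤ G) else 1) *
      diagonal (fun i => if i ∈ s then (-1 : MonoidAlgebra ℤ G) else 1) = 1 := by
    rw [diagonal_mul_diagonal, ← diagonal_one]
    congr 1
    funext i
    by_cases hi : i ∈ s
    · rw [if_pos hi, neg_mul_neg, one_mul]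
    · rw [if_neg hi, one_mul]
  exact ⟨⟨_, _, h, h⟩, rfl⟩

theorem cm_sgn (s : Finset ι) :
    cm (diagonal (fun i => if i ∈ s then (-1 : MonoidAlgebra ℤ G) else 1)) ∈ TU G := by
  induction s using Finset.induction_on with
  | empty =>
    have h : diagonal (fun i : ι => if i ∈ (∅ : Finset ι) then (-1 : MonoidAlgebra ℤ G) else 1) =
        1 := by
      rw [← diagonal_one]
      congr 1
    rw [h, cm_one]
    exact zero_mem _
  | insert a s ha ih =>
    have h : diagonal (fun i => if i ∈ insert a s then (-1 : MonoidAlgebra ℤ G) else 1) =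
        diagonal (fun i => if i = a then (-1 : MonoidAlgebra ℤ G) else 1) *
          diagonal (fun i => if i ∈ s then (-1 : MonoidAlgebra ℤ G) else 1) := by
      rw [diagonal_mul_diagonal]
      congr 1
      funext i
      by_cases hi : i = a
      · subst hi
        rw [if_pos (Finset.mem_insert_self i s), if_pos rfl, if_neg ha, mul_one]
      · rw [if_neg hi, one_mul]
        by_cases hs : i ∈ s
        · rw [if_pos hs, if_pos (Finset.mem_insert_of_mem hs)]
        · rw [if_neg hs, if_neg (fun h => hs (Finset.mem_of_mem_insert_of_ne h hi))]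
    have h1 : IsUnit (diagonal (fun i => if i = a then (-1 : MonoidAlgebra ℤ G) else 1)) := by
      have := isUnit_sgn (G := G) ({a} : Finset ι)
      simpa only [Finset.mem_singleton] using this
    rw [h, cm_mul h1 (isUnit_sgn s), cm_single_neg]
    exact add_mem (trC_mem _ _) ih

/-- the classes of the trivial units contain the classes of permutation matrices and of `-1` -/
theorem good_TU (G : Type u) [Group G] : Good (TU G) where
  perm _ _ _ σ := (perm_mem (G := G) le_rfl σ).2
  neg ι _ _ := by
    have h := cm_sgn (G := G) (Finset.univ : Finset ι)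
    have h1 : diagonal (fun i : ι => if i ∈ (Finset.univ : Finset ι) then
        (-1 : MonoidAlgebra ℤ G) else 1) = -1 := by
      have h2 : (fun i : ι => if i ∈ (Finset.univ : Finset ι) then
        (-1 : MonoidAlgebra ℤ G) else 1) = fun _ => -1 := funext fun i => if_pos (Finset.mem_univ i)
      rw [h2, ← diagonal_neg, diagonal_one]
    rwa [h1] at h

theorem hasIBN_group (G : Type u) [Group G] : HasIBN (MonoidAlgebra ℤ G) :=
  ⟨ULift.{u} ℤ, inferInstance, inferInstance,
    ⟨(ULift.ringEquiv.symm : ℤ ≃+* ULift.{u} ℤ).toRingHom.comp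
      (MonoidAlgebra.lift ℤ ℤ G (1 : G →* ℤ)).toRingHom⟩⟩

end Pool.Agent.Lib.WhC
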